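import Pool.Agent.Helper57.QZ.Stmts2

/-! Row XE (MP_818aa8_nt, sheet Q2): the Dirichlet series of `FX`. -/

set_option autoImplicit false

namespace Pool.Agent.Helper57.QZ

open MeasureTheory Set Filter Topology

namespace H88

theorem div_eq (X n : ℕ) (hn : n ≠ 0) : n.divisors.filter (fun d => d ≤ X) =
    (Finset.Icc 1 X).filter (fun d => d ∣ n) := by
  ext d
  simp only [Finset.mem_filter, Nat.mem_divisors, Finset.mem_Icc]
  constructor
  · rintro ⟨⟨h1, -⟩, h2⟩
    exact ⟨⟨Nat.pos_of_dvd_of_pos h1 (Nat.pos_of_ne_zero hn), h2⟩, h1⟩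
  · rintro ⟨⟨-, h2⟩, h3⟩
    exact ⟨⟨h3, hn⟩, h2⟩

theorem bX_zero (X n : ℕ) (h2 : 2 ≤ n) (hX : n ≤ X) : bX X n = 0 := by
  unfold bX
  have h1 : n.divisors.filter (fun d => d ≤ X) = n.divisors := by
    apply Finset.filter_true_of_mem
    intro d hd
    exact (Nat.divisor_le hd).trans hX
  rw [h1]
  have h3 : ∑ d ∈ n.divisors, ArithmeticFunction.moebius d = 0 := by
    rw [← ArithmeticFunction.coe_mul_zeta_apply, ArithmeticFunction.moebius_mul_coe_zeta,
      ArithmeticFunction.one_apply_ne (by omega)]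
  exact_mod_cast h3

/-- one divisor -/
noncomputable def fd (s : ℂ) (d n : ℕ) : ℂ :=
  if n = 0 then 0 else if d ∣ n then ((ArithmeticFunction.moebius d : ℤ) : ℂ) * (n : ℂ) ^ (-s) else 0

theorem fd_sum (s : ℂ) (hs : 1 < s.re) (d : ℕ) (hd : 1 ≤ d) :
    HasSum (fd s d) (((ArithmeticFunction.moebius d : ℤ) : ℂ) * (d : ℂ) ^ (-s) * riemannZeta s) := by
  have h1 : HasSum (fun m : ℕ => ((ArithmeticFunction.moebius d : ℤ) : ℂ) * (d : ℂ) ^ (-s) *
      LSeries.term 1 s m)
      (((ArithmeticFunction.moebius d : ℤ) : ℂ) * (d : ℂ) ^ (-s) * riemannZeta s) :=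
    (LSeriesHasSum_one hs).mul_left _
  have hinj : Function.Injective (fun m : ℕ => d * m) := by
    intro a b h
    exact Nat.eq_of_mul_eq_mul_left (by omega) h
  have h2 : fd s d ∘ (fun m : ℕ => d * m) = fun m : ℕ =>
      ((ArithmeticFunction.moebius d : ℤ) : ℂ) * (d : ℂ) ^ (-s) * LSeries.term 1 s m := by
    funext m
    simp only [Function.comp_apply, fd]
    by_cases hm : m = 0
    · subst hm
      simp
    · rw [if_neg (by positivity), if_pos (Dvd.intro _ rfl), LSeries.term_of_ne_zero hm]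
      push_cast
      rw [Complex.natCast_mul_natCast_cpow, Complex.cpow_neg (m : ℂ)]
      simp only [Pi.one_apply, one_div]
      ring
  rw [← hinj.hasSum_iff, h2]
  · exact h1
  · intro n hn
    unfold fd
    split_ifs with h3 h4
    · rfl
    · exact absurd ⟨n / d, Nat.mul_div_cancel' h4⟩ hn
    · rfl

end H88

open H88

theorem st_XE : ST_XE := by
  intro X s hX hs
  refine ⟨?_, fun n h2 hn => bX_zero X n h2 hn⟩
  have h1 : HasSum (fun n : ℕ => ∑ d ∈ Finset.Icc 1 X, fd s d n)
      (∑ d ∈ Finset.Icc 1 X,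
        (((ArithmeticFunction.moebius d : ℤ) : ℂ) * (d : ℂ) ^ (-s) * riemannZeta s)) :=
    hasSum_sum fun d hd => fd_sum s hs d (Finset.mem_Icc.1 hd).1
  have h2 : HasSum (fun n : ℕ => if n = 1 then (1 : ℂ) else 0) 1 := hasSum_ite_eq 1 1
  have h3 := h1.sub h2
  have h4 : ∑ d ∈ Finset.Icc 1 X,
      (((ArithmeticFunction.moebius d : ℤ) : ℂ) * (d : ℂ) ^ (-s) * riemannZeta s) - 1 =
      FX X s := by
    unfold FX MX
    rw [← Finset.sum_mul, mul_comm]
  rw [h4] at h3
  have h5 : (fun n : ℕ => if 2 ≤ n then (bX X n : ℂ) * (n : ℂ) ^ (-s) else 0) =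
      fun n : ℕ => ∑ d ∈ Finset.Icc 1 X, fd s d n - (if n = 1 then (1 : ℂ) else 0) := by
    funext n
    by_cases h0 : n = 0
    · subst h0
      simp [fd]
    · have h6 : ∑ d ∈ Finset.Icc 1 X, fd s d n = (bX X n : ℂ) * (n : ℂ) ^ (-s) := by
        unfold bX
        rw [div_eq X n h0, Finset.sum_filter]
        push_cast
        rw [Finset.sum_mul]
        refine Finset.sum_congr rfl fun d _ => ?_
        unfold fd
        rw [if_neg h0]
        split_ifs <;> simp
      rw [h6]
      by_cases h7 : n = 1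
      · subst h7
        have h8 : bX X 1 = 1 := by
          unfold bX
          rw [Nat.divisors_one, Finset.filter_true_of_mem (by
            intro d hd
            rw [Finset.mem_singleton.1 hd]
            exact hX)]
          simp
        rw [h8]
        simp
      · rw [if_pos (by omega), if_neg h7, sub_zero]
  rw [h5]
  exact h3

end Pool.Agent.Helper57.QZ

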